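import Mathlib

namespace Pool.Agent.Results.MP_97c21f_co.Linear

lemma alg (U W E : ℂ)
    (e0 : (4)*U^2 + (4)*U^1*W^1 + (4)*U^1*E^1 + (7)*U^1 + (4)*W^1*E^1 + (5)*W^1 + (1)*E^1 = 0)
    (e1 : (-4)*U^3 + (-12)*U^2*E^1 + (9)*U^2 + (4)*U^1*W^2 + (-8)*U^1*W^1*E^1 + (20)*U^1*W^1 + (-8)*U^1*E^2 + (11)*U^1*E^1 + (55)*U^1 + (4)*W^2*E^1 + (5)*W^2 + (-8)*W^1*E^2 + (17)*W^1*E^1 + (39)*W^1 + (-2)*E^2 + (7)*E^1 = 0)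
    (e2 : (-216)*U^3 + (-324)*U^2*W^1 + (-324)*U^2*E^1 + (-320)*U^2 + (-108)*U^1*W^2 + (-432)*U^1*W^1*E^1 + (-372)*U^1*W^1 + (-108)*U^1*E^2 + (-48)*U^1*E^1 + (473)*U^1 + (-108)*W^2*E^1 + (-136)*W^2 + (-108)*W^1*E^2 + (36)*W^1*E^1 + (335)*W^1 + (-28)*E^2 + (55)*E^1 = 0)
    (e3 : (432)*U^4 + (432)*U^3*W^1 + (1296)*U^3*E^1 + (-224)*U^3 + (-108)*U^2*W^2 + (1512)*U^2*W^1*E^1 + (-656)*U^2*W^1 + (1188)*U^2*E^2 + (-672)*U^2*E^1 + (-3621)*U^2 + (-108)*U^1*W^3 + (108)*U^1*W^2*E^1 + (-232)*U^1*W^2 + (1404)*U^1*W^1*E^2 + (-864)*U^1*W^1*E^1 + (-2146)*U^1*W^1 + (324)*U^1*E^3 + (-256)*U^1*E^2 + (-1846)*U^1*E^1 + (2284)*U^1 + (-108)*W^3*E^1 + (-136)*W^3 + (216)*W^2*E^2 + (312)*W^2*E^1 + (161)*W^2 + (324)*W^1*E^3 + (-592)*W^1*E^2 + (-700)*W^1*E^1 + (1622)*W^1 + (84)*E^3 + (-291)*E^2 + (238)*E^1 = 0)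
    (e4 : (20736)*U^4 + (41472)*U^3*W^1 + (41472)*U^3*E^1 + (33733)*U^3 + (25344)*U^2*W^2 + (73728)*U^2*W^1*E^1 + (58890)*U^2*W^1 + (25344)*U^2*E^2 + (17418)*U^2*E^1 + (-53546)*U^2 + (4608)*U^1*W^3 + (36864)*U^1*W^2*E^1 + (35855)*U^1*W^2 + (36864)*U^1*W^1*E^2 + (22661)*U^1*W^1*E^1 + (-46914)*U^1*W^1 + (4608)*U^1*E^3 + (3599)*U^1*E^2 + (-21009)*U^1*E^1 + (21977)*U^1 + (4608)*W^3*E^1 + (5826)*W^3 + (11520)*W^2*E^2 + (12551)*W^2*E^1 + (-7624)*W^2 + (4608)*W^1*E^3 + (-1273)*W^1*E^2 + (-9189)*W^1*E^1 + (15647)*W^1 + (1218)*E^3 + (-2829)*E^2 + (2199)*E^1 = 0)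
    (hw : 1 + W ≠ 0) : U = 0 ∧ W = 0 ∧ E = 0 := by
  have r1 : 3 * U + W + E = 0 := by linear_combination ((-180)*U^3 + (-769/6)*U^2*W^1 + (8927/6)*U^2*E^1 + (15069/4)*U^2 + (232)*U^1*W^2 + (18031/6)*U^1*W^1*E^1 + (49799/6)*U^1*W^1 + (-325/2)*U^1*E^2 + (20579/12)*U^1*E^1 + (25803/4)*U^1 + (-29/6)*W^3 + (5410/3)*W^2*E^1 + (44137/12)*W^2 + (-1615/6)*W^1*E^2 + (27607/12)*W^1*E^1 + (59101/12)*W^1 + (17/3)*E^3 + (-377/3)*E^2 + (8005/12)*E^1 + (1514/9)) * e0 + ((-985/6)*U^1*W^1 + (-3817/6)*U^1*E^1 + (-20389/12)*U^1 + (29/6)*W^2 + (-2060/3)*W^1*E^1 + (-5309/4)*W^1 + (17/6)*E^2 + (-585/4)*E^1 + (-1007/9)) * e1 + ((48)*U^1*E^1 + (889/9)*U^1 + (1/3)*W^2 + (39)*W^1*E^1 + (862/9)*W^1 + (3)*E^2 + (-4/3)*E^1 + (169/9)) * e2 + ((5/3)*U^1 + (-1/3)*W^1 + (1)*E^1 + (-25/9)) * e3 + ((1/9)) * e4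
  have r2 : 3 * W ^ 2 + 7 * W - 2 * E = 0 := by linear_combination ((1233)*U^3 + (7003/8)*U^2*W^1 + (-90517/8)*U^2*E^1 + (-1440919/48)*U^2 + (-1585)*U^1*W^2 + (-184957/8)*U^1*W^1*E^1 + (-535575/8)*U^1*W^1 + (10421/8)*U^1*E^2 + (-214841/16)*U^1*E^1 + (-2776525/48)*U^1 + (295/8)*W^3 + (-27169/2)*W^2*E^1 + (-1414181/48)*W^2 + (14853/8)*W^1*E^2 + (-299381/16)*W^1*E^1 + (-714929/16)*W^1 + (-155/4)*E^3 + (8857/12)*E^2 + (-331981/48)*E^1 + (-166009/36)) * e0 + ((8947/8)*U^1*W^1 + (38867/8)*U^1*E^1 + (231815/16)*U^1 + (-295/8)*W^2 + (5116)*W^1*E^1 + (168385/16)*W^1 + (-155/8)*E^2 + (29721/16)*E^1 + (204803/72)) * e1 + ((-1064/3)*U^1*E^1 + (-8054/9)*U^1 + (-9/4)*W^2 + (-3593/12)*W^1*E^1 + (-63949/72)*W^1 + (-57/4)*E^2 + (-199/24)*E^1 + (-32821/72)) * e2 + ((-137/12)*U^1 + (9/4)*W^1 + (-19/4)*E^1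 + (4711/72)) * e3 + ((-95/36)) * e4
  have r3 : 3 * W * E + 8 * W - E = 0 := by linear_combination ((1737)*U^3 + (9711/8)*U^2*W^1 + (-124465/8)*U^2*E^1 + (-1997099/48)*U^2 + (-2306)*U^1*W^2 + (-252065/8)*U^1*W^1*E^1 + (-740577/8)*U^1*W^1 + (13377/8)*U^1*E^2 + (-283021/16)*U^1*E^1 + (-3754397/48)*U^1 + (403/8)*W^3 + (-37343/2)*W^2*E^1 + (-1950853/48)*W^2 + (20929/8)*W^1*E^2 + (-402297/16)*W^1*E^1 + (-962587/16)*W^1 + (-223/4)*E^3 + (13829/12)*E^2 + (-440449/48)*E^1 + (-203657/36)) * e0 + ((12951/8)*U^1*W^1 + (52871/8)*U^1*E^1 + (319307/16)*U^1 + (-403/8)*W^2 + (7053)*W^1*E^1 + (232169/16)*W^1 + (-223/8)*E^2 + (38869/16)*E^1 + (128477/36)) * e1 + ((-492)*U^1*E^1 + (-44857/36)*U^1 + (-15/4)*W^2 + (-1627/4)*W^1*E^1 + (-11035/9)*W^1 + (-103/4)*E^2 + (13/6)*E^1 + (-21019/36)) * e2 + ((-193/12)*U^1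 + (15/4)*W^1 + (-103/12)*E^1 + (3163/36)) * e3 + ((-133/36)) * e4
  have r4 : W * (1 + W) ^ 2 = 0 := by linear_combination (1 / 9 * (3 * W - 1)) * r2 + (2 / 9) * r3
  have hW : W = 0 := (mul_eq_zero.1 r4).resolve_right (pow_ne_zero 2 hw)
  have hE : E = 0 := by rw [hW] at r2; linear_combination (-1 / 2) * r2
  exact ⟨by rw [hW, hE] at r1; linear_combination (1 / 3) * r1, hW, hE⟩

lemma main (U W E d : ℂ) (S : ℕ → ℕ → ℂ) (s11 : S 1 1 = 1)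
    (c1_1 : S 2 1 = ((2 + U - d) * 1 + (W - E) * 1 - U - W) * S 1 1)
    (c1_2 : S 2 2 = (d * 1 + (1 + E) * 2 - E) * S 1 1)
    (c2_1 : S 3 1 = ((2 + U - d) * 2 + (W - E) * 1 - U - W) * S 2 1)
    (c2_2 : S 3 2 = ((2 + U - d) * 2 + (W - E) * 2 - U - W) * S 2 2 + (d * 2 + (1 + E) * 2 - E) * S 2 1)
    (c2_3 : S 3 3 = (d * 2 + (1 + E) * 3 - E) * S 2 2)
    (c3_1 : S 4 1 = ((2 + U - d) * 3 + (W - E) * 1 - U - W) * S 3 1)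
    (c3_2 : S 4 2 = ((2 + U - d) * 3 + (W - E) * 2 - U - W) * S 3 2 + (d * 3 + (1 + E) * 2 - E) * S 3 1)
    (c3_3 : S 4 3 = ((2 + U - d) * 3 + (W - E) * 3 - U - W) * S 3 3 + (d * 3 + (1 + E) * 3 - E) * S 3 2)
    (c3_4 : S 4 4 = (d * 3 + (1 + E) * 4 - E) * S 3 3)
    (c4_1 : S 5 1 = ((2 + U - d) * 4 + (W - E) * 1 - U - W) * S 4 1)
    (c4_2 : S 5 2 = ((2 + U - d) * 4 + (W - E) * 2 - U - W) * S 4 2 + (d * 4 + (1 + E) * 2 - E) * S 4 1)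
    (c4_3 : S 5 3 = ((2 + U - d) * 4 + (W - E) * 3 - U - W) * S 4 3 + (d * 4 + (1 + E) * 3 - E) * S 4 2)
    (c4_4 : S 5 4 = ((2 + U - d) * 4 + (W - E) * 4 - U - W) * S 4 4 + (d * 4 + (1 + E) * 4 - E) * S 4 3)
    (c4_5 : S 5 5 = (d * 4 + (1 + E) * 5 - E) * S 4 4)
    (c5_1 : S 6 1 = ((2 + U - d) * 5 + (W - E) * 1 - U - W) * S 5 1)
    (c5_2 : S 6 2 = ((2 + U - d) * 5 + (W - E) * 2 - U - W) * S 5 2 + (d * 5 + (1 + E) * 2 - E) * S 5 1)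
    (c5_3 : S 6 3 = ((2 + U - d) * 5 + (W - E) * 3 - U - W) * S 5 3 + (d * 5 + (1 + E) * 3 - E) * S 5 2)
    (c5_4 : S 6 4 = ((2 + U - d) * 5 + (W - E) * 4 - U - W) * S 5 4 + (d * 5 + (1 + E) * 4 - E) * S 5 3)
    (c5_5 : S 6 5 = ((2 + U - d) * 5 + (W - E) * 5 - U - W) * S 5 5 + (d * 5 + (1 + E) * 5 - E) * S 5 4)
    (c5_6 : S 6 6 = (d * 5 + (1 + E) * 6 - E) * S 5 5)
    (c6_1 : S 7 1 = ((2 + U - d) * 6 + (W - E) * 1 - U - W) * S 6 1)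
    (c6_2 : S 7 2 = ((2 + U - d) * 6 + (W - E) * 2 - U - W) * S 6 2 + (d * 6 + (1 + E) * 2 - E) * S 6 1)
    (c6_3 : S 7 3 = ((2 + U - d) * 6 + (W - E) * 3 - U - W) * S 6 3 + (d * 6 + (1 + E) * 3 - E) * S 6 2)
    (c6_4 : S 7 4 = ((2 + U - d) * 6 + (W - E) * 4 - U - W) * S 6 4 + (d * 6 + (1 + E) * 4 - E) * S 6 3)
    (c6_5 : S 7 5 = ((2 + U - d) * 6 + (W - E) * 5 - U - W) * S 6 5 + (d * 6 + (1 + E) * 5 - E) * S 6 4)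
    (c6_6 : S 7 6 = ((2 + U - d) * 6 + (W - E) * 6 - U - W) * S 6 6 + (d * 6 + (1 + E) * 6 - E) * S 6 5)
    (c6_7 : S 7 7 = (d * 6 + (1 + E) * 7 - E) * S 6 6)
    (c7_1 : S 8 1 = ((2 + U - d) * 7 + (W - E) * 1 - U - W) * S 7 1)
    (c7_2 : S 8 2 = ((2 + U - d) * 7 + (W - E) * 2 - U - W) * S 7 2 + (d * 7 + (1 + E) * 2 - E) * S 7 1)
    (c7_3 : S 8 3 = ((2 + U - d) * 7 + (W - E) * 3 - U - W) * S 7 3 + (d * 7 + (1 + E) * 3 - E) * S 7 2)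
    (c7_4 : S 8 4 = ((2 + U - d) * 7 + (W - E) * 4 - U - W) * S 7 4 + (d * 7 + (1 + E) * 4 - E) * S 7 3)
    (c7_5 : S 8 5 = ((2 + U - d) * 7 + (W - E) * 5 - U - W) * S 7 5 + (d * 7 + (1 + E) * 5 - E) * S 7 4)
    (c7_6 : S 8 6 = ((2 + U - d) * 7 + (W - E) * 6 - U - W) * S 7 6 + (d * 7 + (1 + E) * 6 - E) * S 7 5)
    (c7_7 : S 8 7 = ((2 + U - d) * 7 + (W - E) * 7 - U - W) * S 7 7 + (d * 7 + (1 + E) * 7 - E) * S 7 6)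
    (c7_8 : S 8 8 = (d * 7 + (1 + E) * 8 - E) * S 7 7)
    (w0_2 : S 2 1 + S 2 2 = 4)
    (w0_3 : S 3 1 + S 3 2 + S 3 3 = 27)
    (w0_4 : S 4 1 + S 4 2 + S 4 3 + S 4 4 = 256)
    (w0_5 : S 5 1 + S 5 2 + S 5 3 + S 5 4 + S 5 5 = 3125)
    (w0_6 : S 6 1 + S 6 2 + S 6 3 + S 6 4 + S 6 5 + S 6 6 = 46656)
    (w0_7 : S 7 1 + S 7 2 + S 7 3 + S 7 4 + S 7 5 + S 7 6 + S 7 7 = 823543)
    (w0_8 : S 8 1 + S 8 2 + S 8 3 + S 8 4 + S 8 5 + S 8 6 + S 8 7 + S 8 8 = 16777216)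
    : U = 0 ∧ W = 0 ∧ E = 0 ∧ d = 1 := by
  have hD : d * (1 + W) = 11 - 4 * (2 + U) - (2 + E) * (1 + W) := by
    rw [c2_1, c2_2, c2_3, c1_1, c1_2, s11] at w0_3
    linear_combination w0_3
  have w1_2 : (1 + W) ^ 1 * (1 * S 2 1 + 2 * S 2 2) = (-4)*U^1 + (4)*W^1 + (7) := by
    linear_combination w0_3 - ((2 + U) * 2 + 1 - U - W) * w0_2 - (1 + W) ^ 0 * (1 * c2_1 + 1 * c2_2 + 1 * c2_3)
  have w1_3 : (1 + W) ^ 1 * (1 * S 3 1 + 2 * S 3 2 + 3 * S 3 3) = (-54)*U^1 + (27)*W^1 + (67) := by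
    linear_combination w0_4 - ((2 + U) * 3 + 1 - U - W) * w0_3 - (1 + W) ^ 0 * (1 * c3_1 + 1 * c3_2 + 1 * c3_3 + 1 * c3_4)
  have w1_4 : (1 + W) ^ 1 * (1 * S 4 1 + 2 * S 4 2 + 3 * S 4 3 + 4 * S 4 4) = (-768)*U^1 + (256)*W^1 + (821) := by
    linear_combination w0_5 - ((2 + U) * 4 + 1 - U - W) * w0_4 - (1 + W) ^ 0 * (1 * c4_1 + 1 * c4_2 + 1 * c4_3 + 1 * c4_4 + 1 * c4_5)
  have w1_5 : (1 + W) ^ 1 * (1 * S 5 1 + 2 * S 5 2 + 3 * S 5 3 + 4 * S 5 4 + 5 * S 5 5) = (-12500)*U^1 + (3125)*W^1 + (12281) := by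
    linear_combination w0_6 - ((2 + U) * 5 + 1 - U - W) * w0_5 - (1 + W) ^ 0 * (1 * c5_1 + 1 * c5_2 + 1 * c5_3 + 1 * c5_4 + 1 * c5_5 + 1 * c5_6)
  have w1_6 : (1 + W) ^ 1 * (1 * S 6 1 + 2 * S 6 2 + 3 * S 6 3 + 4 * S 6 4 + 5 * S 6 5 + 6 * S 6 6) = (-233280)*U^1 + (46656)*W^1 + (217015) := by
    linear_combination w0_7 - ((2 + U) * 6 + 1 - U - W) * w0_6 - (1 + W) ^ 0 * (1 * c6_1 + 1 * c6_2 + 1 * c6_3 + 1 * c6_4 + 1 * c6_5 + 1 * c6_6 + 1 * c6_7)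
  have w1_7 : (1 + W) ^ 1 * (1 * S 7 1 + 2 * S 7 2 + 3 * S 7 3 + 4 * S 7 4 + 5 * S 7 5 + 6 * S 7 6 + 7 * S 7 7) = (-4941258)*U^1 + (823543)*W^1 + (4424071) := by
    linear_combination w0_8 - ((2 + U) * 7 + 1 - U - W) * w0_7 - (1 + W) ^ 0 * (1 * c7_1 + 1 * c7_2 + 1 * c7_3 + 1 * c7_4 + 1 * c7_5 + 1 * c7_6 + 1 * c7_7 + 1 * c7_8)
  have w2_2 : (1 + W) ^ 2 * (1 * S 2 1 + 4 * S 2 2) = (4)*U^2 + (-8)*U^1*W^1 + (4)*U^1*E^1 + (-5)*U^1 + (4)*W^2 + (4)*W^1*E^1 + (22)*W^1 + (1)*E^1 + (13) := by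
    linear_combination w1_3 - ((2 + U) * 2 + 1 - U - W) * w1_2 - 1 * (1 + W) ^ 0 * (((11 - 4 * (2 + U) - (2 + E) * (1 + W)) * 2 + (1 + W)) * w0_2 + (1 + E) * w1_2) - (1 + W) ^ 1 * (1 * c2_1 + 2 * c2_2 + 3 * c2_3) - 2 * (1 + W) ^ 0 * (1 * S 2 1 + 1 * S 2 2) * hD
  have w2_3 : (1 + W) ^ 2 * (1 * S 3 1 + 4 * S 3 2 + 9 * S 3 3) = (108)*U^2 + (-108)*U^1*W^1 + (54)*U^1*E^1 + (-146)*U^1 + (27)*W^2 + (54)*W^1*E^1 + (242)*W^1 + (14)*E^1 + (177) := by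
    linear_combination w1_4 - ((2 + U) * 3 + 1 - U - W) * w1_3 - 1 * (1 + W) ^ 0 * (((11 - 4 * (2 + U) - (2 + E) * (1 + W)) * 3 + (1 + W)) * w0_3 + (1 + E) * w1_3) - (1 + W) ^ 1 * (1 * c3_1 + 2 * c3_2 + 3 * c3_3 + 4 * c3_4) - 3 * (1 + W) ^ 0 * (1 * S 3 1 + 1 * S 3 2 + 1 * S 3 3) * hD
  have w2_4 : (1 + W) ^ 2 * (1 * S 4 1 + 4 * S 4 2 + 9 * S 4 3 + 16 * S 4 4) = (2304)*U^2 + (-1536)*U^1*W^1 + (768)*U^1*E^1 + (-3187)*U^1 + (256)*W^2 + (768)*W^1*E^1 + (3178)*W^1 + (203)*E^1 + (2791) := by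
    linear_combination w1_5 - ((2 + U) * 4 + 1 - U - W) * w1_4 - 1 * (1 + W) ^ 0 * (((11 - 4 * (2 + U) - (2 + E) * (1 + W)) * 4 + (1 + W)) * w0_4 + (1 + E) * w1_4) - (1 + W) ^ 1 * (1 * c4_1 + 2 * c4_2 + 3 * c4_3 + 4 * c4_4 + 5 * c4_5) - 4 * (1 + W) ^ 0 * (1 * S 4 1 + 1 * S 4 2 + 1 * S 4 3 + 1 * S 4 4) * hD
  have w2_5 : (1 + W) ^ 2 * (1 * S 5 1 + 4 * S 5 2 + 9 * S 5 3 + 16 * S 5 4 + 25 * S 5 5) = (50000)*U^2 + (-25000)*U^1*W^1 + (12500)*U^1*E^1 + (-69904)*U^1 + (3125)*W^2 + (12500)*W^1*E^1 + (49562)*W^1 + (3344)*E^1 + (50893) := by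
    linear_combination w1_6 - ((2 + U) * 5 + 1 - U - W) * w1_5 - 1 * (1 + W) ^ 0 * (((11 - 4 * (2 + U) - (2 + E) * (1 + W)) * 5 + (1 + W)) * w0_5 + (1 + E) * w1_5) - (1 + W) ^ 1 * (1 * c5_1 + 2 * c5_2 + 3 * c5_3 + 4 * c5_4 + 5 * c5_5 + 6 * c5_6) - 5 * (1 + W) ^ 0 * (1 * S 5 1 + 1 * S 5 2 + 1 * S 5 3 + 1 * S 5 4 + 1 * S 5 5) * hD
  have w2_6 : (1 + W) ^ 2 * (1 * S 6 1 + 4 * S 6 2 + 9 * S 6 3 + 16 * S 6 4 + 25 * S 6 5 + 36 * S 6 6) = (1166400)*U^2 + (-466560)*U^1*W^1 + (233280)*U^1*E^1 + (-1640669)*U^1 + (46656)*W^2 + (233280)*W^1*E^1 + (900590)*W^1 + (62921)*E^1 + (1059269) := by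
    linear_combination w1_7 - ((2 + U) * 6 + 1 - U - W) * w1_6 - 1 * (1 + W) ^ 0 * (((11 - 4 * (2 + U) - (2 + E) * (1 + W)) * 6 + (1 + W)) * w0_6 + (1 + E) * w1_6) - (1 + W) ^ 1 * (1 * c6_1 + 2 * c6_2 + 3 * c6_3 + 4 * c6_4 + 5 * c6_5 + 6 * c6_6 + 7 * c6_7) - 6 * (1 + W) ^ 0 * (1 * S 6 1 + 1 * S 6 2 + 1 * S 6 3 + 1 * S 6 4 + 1 * S 6 5 + 1 * S 6 6) * hD
  have w3_2 : (1 + W) ^ 3 * (1 * S 2 1 + 8 * S 2 2) = (-4)*U^3 + (12)*U^2*W^1 + (-12)*U^2*E^1 + (21)*U^2 + (-12)*U^1*W^2 + (4)*U^1*W^1*E^1 + (-3)*U^1*W^1 + (-8)*U^1*E^2 + (23)*U^1*E^1 + (48)*U^1 + (4)*W^3 + (16)*W^2*E^1 + (53)*W^2 + (-8)*W^1*E^2 + (32)*W^1*E^1 + (108)*W^1 + (-2)*E^2 + (10)*E^1 + (25) := by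
    linear_combination w2_3 - ((2 + U) * 2 + 1 - U - W) * w2_2 - 1 * (1 + W) ^ 1 * (((11 - 4 * (2 + U) - (2 + E) * (1 + W)) * 2 + (1 + W)) * w0_2 + (1 + E) * w1_2) - 2 * (1 + W) ^ 0 * (((11 - 4 * (2 + U) - (2 + E) * (1 + W)) * 2 + (1 + W)) * w1_2 + (1 + E) * w2_2) - (1 + W) ^ 2 * (1 * c2_1 + 4 * c2_2 + 9 * c2_3) - 2 * (1 + W) ^ 1 * (3 * S 2 1 + 5 * S 2 2) * hD
  have w3_3 : (1 + W) ^ 3 * (1 * S 3 1 + 8 * S 3 2 + 27 * S 3 3) = (-216)*U^3 + (324)*U^2*W^1 + (-324)*U^2*E^1 + (328)*U^2 + (-162)*U^1*W^2 + (-108)*U^1*W^1*E^1 + (-708)*U^1*W^1 + (-108)*U^1*E^2 + (276)*U^1*E^1 + (191)*U^1 + (27)*W^3 + (216)*W^2*E^1 + (633)*W^2 + (-108)*W^1*E^2 + (444)*W^1*E^1 + (1564)*W^1 + (-28)*E^2 + (139)*E^1 + (487) := by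
    linear_combination w2_4 - ((2 + U) * 3 + 1 - U - W) * w2_3 - 1 * (1 + W) ^ 1 * (((11 - 4 * (2 + U) - (2 + E) * (1 + W)) * 3 + (1 + W)) * w0_3 + (1 + E) * w1_3) - 2 * (1 + W) ^ 0 * (((11 - 4 * (2 + U) - (2 + E) * (1 + W)) * 3 + (1 + W)) * w1_3 + (1 + E) * w2_3) - (1 + W) ^ 2 * (1 * c3_1 + 4 * c3_2 + 9 * c3_3 + 16 * c3_4) - 3 * (1 + W) ^ 1 * (3 * S 3 1 + 5 * S 3 2 + 7 * S 3 3) * hD
  have w3_4 : (1 + W) ^ 3 * (1 * S 4 1 + 8 * S 4 2 + 27 * S 4 3 + 64 * S 4 4) = (-6912)*U^3 + (6912)*U^2*W^1 + (-6912)*U^2*E^1 + (9641)*U^2 + (-2304)*U^1*W^2 + (-3840)*U^1*W^1*E^1 + (-18521)*U^1*W^1 + (-1536)*U^1*E^2 + (4441)*U^1*E^1 + (-4404)*U^1 + (256)*W^3 + (3072)*W^2*E^1 + (8607)*W^2 + (-1536)*W^1*E^2 + (7486)*W^1*E^1 + (25764)*W^1 + (-406)*E^2 + (2300)*E^1 + (9881) := by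
    linear_combination w2_5 - ((2 + U) * 4 + 1 - U - W) * w2_4 - 1 * (1 + W) ^ 1 * (((11 - 4 * (2 + U) - (2 + E) * (1 + W)) * 4 + (1 + W)) * w0_4 + (1 + E) * w1_4) - 2 * (1 + W) ^ 0 * (((11 - 4 * (2 + U) - (2 + E) * (1 + W)) * 4 + (1 + W)) * w1_4 + (1 + E) * w2_4) - (1 + W) ^ 2 * (1 * c4_1 + 4 * c4_2 + 9 * c4_3 + 16 * c4_4 + 25 * c4_5) - 4 * (1 + W) ^ 1 * (3 * S 4 1 + 5 * S 4 2 + 7 * S 4 3 + 9 * S 4 4) * hD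
  have w3_5 : (1 + W) ^ 3 * (1 * S 5 1 + 8 * S 5 2 + 27 * S 5 3 + 64 * S 5 4 + 125 * S 5 5) = (-200000)*U^3 + (150000)*U^2*W^1 + (-150000)*U^2*E^1 + (296016)*U^2 + (-37500)*U^1*W^2 + (-100000)*U^1*W^1*E^1 + (-434712)*U^1*W^1 + (-25000)*U^1*E^2 + (84712)*U^1*E^1 + (-219249)*U^1 + (3125)*W^3 + (50000)*W^2*E^1 + (136843)*W^2 + (-25000)*W^1*E^2 + (144904)*W^1*E^1 + (484704)*W^1 + (-6688)*E^2 + (43817)*E^1 + (219257) := by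
    linear_combination w2_6 - ((2 + U) * 5 + 1 - U - W) * w2_5 - 1 * (1 + W) ^ 1 * (((11 - 4 * (2 + U) - (2 + E) * (1 + W)) * 5 + (1 + W)) * w0_5 + (1 + E) * w1_5) - 2 * (1 + W) ^ 0 * (((11 - 4 * (2 + U) - (2 + E) * (1 + W)) * 5 + (1 + W)) * w1_5 + (1 + E) * w2_5) - (1 + W) ^ 2 * (1 * c5_1 + 4 * c5_2 + 9 * c5_3 + 16 * c5_4 + 25 * c5_5 + 36 * c5_6) - 5 * (1 + W) ^ 1 * (3 * S 5 1 + 5 * S 5 2 + 7 * S 5 3 + 9 * S 5 4 + 11 * S 5 5) * hD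
  have w4_2 : (1 + W) ^ 4 * (1 * S 2 1 + 16 * S 2 2) = (4)*U^4 + (-16)*U^3*W^1 + (24)*U^3*E^1 + (-109)*U^3 + (24)*U^2*W^2 + (-40)*U^2*W^1*E^1 + (-12)*U^2*W^1 + (44)*U^2*E^2 + (-206)*U^2*E^1 + (-152)*U^2 + (-16)*U^1*W^3 + (-20)*U^1*W^2*E^1 + (22)*U^1*W^2 + (-99)*U^1*W^1*E^1 + (186)*U^1*W^1 + (24)*U^1*E^3 + (-99)*U^1*E^2 + (-121)*U^1*E^1 + (394)*U^1 + (4)*W^4 + (44)*W^3*E^1 + (116)*W^3 + (-44)*W^2*E^2 + (162)*W^2*E^1 + (461)*W^2 + (24)*W^1*E^3 + (-127)*W^1*E^2 + (51)*W^1*E^1 + (473)*W^1 + (6)*E^3 + (-39)*E^2 + (54)*E^1 + (49) := by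
    linear_combination w3_3 - ((2 + U) * 2 + 1 - U - W) * w3_2 - 1 * (1 + W) ^ 2 * (((11 - 4 * (2 + U) - (2 + E) * (1 + W)) * 2 + (1 + W)) * w0_2 + (1 + E) * w1_2) - 3 * (1 + W) ^ 1 * (((11 - 4 * (2 + U) - (2 + E) * (1 + W)) * 2 + (1 + W)) * w1_2 + (1 + E) * w2_2) - 3 * (1 + W) ^ 0 * (((11 - 4 * (2 + U) - (2 + E) * (1 + W)) * 2 + (1 + W)) * w2_2 + (1 + E) * w3_2) - (1 + W) ^ 3 * (1 * c2_1 + 8 * c2_2 + 27 * c2_3) - 2 * (1 + W) ^ 2 * (7 * S 2 1 + 19 * S 2 2) * hD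
  have w4_3 : (1 + W) ^ 4 * (1 * S 3 1 + 16 * S 3 2 + 81 * S 3 3) = (432)*U^4 + (-864)*U^3*W^1 + (1296)*U^3*E^1 + (-1520)*U^3 + (648)*U^2*W^2 + (-432)*U^2*W^1*E^1 + (880)*U^2*W^1 + (1188)*U^2*E^2 + (-2616)*U^2*E^1 + (-2841)*U^2 + (-216)*U^1*W^3 + (-1134)*U^1*W^2*E^1 + (-2442)*U^1*W^2 + (756)*U^1*W^1*E^2 + (-1044)*U^1*W^1*E^1 + (-1820)*U^1*W^1 + (324)*U^1*E^3 + (-904)*U^1*E^2 + (-784)*U^1*E^1 + (4712)*U^1 + (27)*W^4 + (594)*W^3*E^1 + (1456)*W^3 + (-432)*W^2*E^2 + (2930)*W^2*E^1 + (7467)*W^2 + (324)*W^1*E^3 + (-1408)*W^1*E^2 + (1896)*W^1*E^1 + (8740)*W^1 + (84)*E^3 + (-459)*E^2 + (918)*E^1 + (1377) := by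
    linear_combination w3_4 - ((2 + U) * 3 + 1 - U - W) * w3_3 - 1 * (1 + W) ^ 2 * (((11 - 4 * (2 + U) - (2 + E) * (1 + W)) * 3 + (1 + W)) * w0_3 + (1 + E) * w1_3) - 3 * (1 + W) ^ 1 * (((11 - 4 * (2 + U) - (2 + E) * (1 + W)) * 3 + (1 + W)) * w1_3 + (1 + E) * w2_3) - 3 * (1 + W) ^ 0 * (((11 - 4 * (2 + U) - (2 + E) * (1 + W)) * 3 + (1 + W)) * w2_3 + (1 + E) * w3_3) - (1 + W) ^ 3 * (1 * c3_1 + 8 * c3_2 + 27 * c3_3 + 64 * c3_4) - 3 * (1 + W) ^ 2 * (7 * S 3 1 + 19 * S 3 2 + 37 * S 3 3) * hD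
  have w4_4 : (1 + W) ^ 4 * (1 * S 4 1 + 16 * S 4 2 + 81 * S 4 3 + 256 * S 4 4) = (20736)*U^4 + (-27648)*U^3*W^1 + (41472)*U^3*E^1 + (-35387)*U^3 + (13824)*U^2*W^2 + (4608)*U^2*W^1*E^1 + (63140)*U^2*W^1 + (25344)*U^2*E^2 + (-51702)*U^2*E^1 + (-37776)*U^2 + (-3072)*U^1*W^3 + (-28416)*U^1*W^2*E^1 + (-68530)*U^1*W^2 + (21504)*U^1*W^1*E^2 + (-25089)*U^1*W^1*E^1 + (-114514)*U^1*W^1 + (4608)*U^1*E^3 + (-11761)*U^1*E^2 + (-3479)*U^1*E^1 + (51082)*U^1 + (256)*W^4 + (8448)*W^3*E^1 + (20180)*W^3 + (-3840)*W^2*E^2 + (57266)*W^2*E^1 + (131667)*W^2 + (4608)*W^1*E^3 + (-20693)*W^1*E^2 + (47581)*W^1*E^1 + (176871)*W^1 + (1218)*E^3 + (-6889)*E^2 + (18094)*E^1 + (36031) := by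
    linear_combination w3_5 - ((2 + U) * 4 + 1 - U - W) * w3_4 - 1 * (1 + W) ^ 2 * (((11 - 4 * (2 + U) - (2 + E) * (1 + W)) * 4 + (1 + W)) * w0_4 + (1 + E) * w1_4) - 3 * (1 + W) ^ 1 * (((11 - 4 * (2 + U) - (2 + E) * (1 + W)) * 4 + (1 + W)) * w1_4 + (1 + E) * w2_4) - 3 * (1 + W) ^ 0 * (((11 - 4 * (2 + U) - (2 + E) * (1 + W)) * 4 + (1 + W)) * w2_4 + (1 + E) * w3_4) - (1 + W) ^ 3 * (1 * c4_1 + 8 * c4_2 + 27 * c4_3 + 64 * c4_4 + 125 * c4_5) - 4 * (1 + W) ^ 2 * (7 * S 4 1 + 19 * S 4 2 + 37 * S 4 3 + 61 * S 4 4) * hD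
  have hw : 1 + W ≠ 0 := by
    intro h
    rw [h] at hD w1_3
    have : (1 : ℂ) = 0 := by linear_combination (2) * w1_3 - (27) * hD + (54) * h
    exact one_ne_zero this
  obtain ⟨h1, h2, h3⟩ := alg U W E (by linear_combination (-2) * (1 + W) ^ 2 * w0_2 + (3) * (1 + W) ^ 1 * w1_2 + (-1) * (1 + W) ^ 0 * w2_2)
    (by linear_combination (-2) * (1 + W) ^ 2 * w1_2 + (3) * (1 + W) ^ 1 * w2_2 + (-1) * (1 + W) ^ 0 * w3_2)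
    (by linear_combination (6) * (1 + W) ^ 3 * w0_3 + (-11) * (1 + W) ^ 2 * w1_3 + (6) * (1 + W) ^ 1 * w2_3 + (-1) * (1 + W) ^ 0 * w3_3)
    (by linear_combination (6) * (1 + W) ^ 3 * w1_3 + (-11) * (1 + W) ^ 2 * w2_3 + (6) * (1 + W) ^ 1 * w3_3 + (-1) * (1 + W) ^ 0 * w4_3)
    (by linear_combination (-24) * (1 + W) ^ 4 * w0_4 + (50) * (1 + W) ^ 3 * w1_4 + (-35) * (1 + W) ^ 2 * w2_4 + (10) * (1 + W) ^ 1 * w3_4 + (-1) * (1 + W) ^ 0 * w4_4) hw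
  refine ⟨h1, h2, h3, ?_⟩
  rw [h1, h2, h3] at hD
  linear_combination hD

theorem result (a b c d e f : ℂ) (S : ℕ → ℕ → ℂ) (hA : S 0 0 = 1)
    (hB1 : ∀ n, 1 ≤ n → S 0 n = 0) (hB2 : ∀ m, 1 ≤ m → S m 0 = 0)
    (hC : ∀ m n : ℕ, 1 ≤ n →
      S (m + 1) n = (a * m + b * n + c) * S m n + (d * m + e * n + f) * S m (n - 1))
    (hS : ∀ m : ℕ, 1 ≤ m → ∑ n ∈ Finset.Icc 1 m, S m n = (m : ℂ) ^ m) :
    a = 1 ∧ b = 0 ∧ c = 0 ∧ d = 1 ∧ e = 1 ∧ f = 0 := by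
  have Z : ∀ m n, m < n → S m n = 0 := by
    intro m
    induction m with
    | zero => exact fun n h => hB1 n h
    | succ m ih => intro n h; rw [hC m n (by omega), ih n (by omega), ih (n - 1) (by omega)]; ring
  have s1 : S 1 1 = 1 := by
    have h := hS 1 (by norm_num)
    simp only [Finset.sum_Icc_succ_top, Finset.Icc_self, Finset.sum_singleton, Nat.reduceLeDiff, Nat.reduceAdd, le_refl] at h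
    rw [h]; norm_num
  have s2 : S 2 1 + S 2 2 = 4 := by
    have h := hS 2 (by norm_num)
    simp only [Finset.sum_Icc_succ_top, Finset.Icc_self, Finset.sum_singleton, Nat.reduceLeDiff, Nat.reduceAdd, le_refl] at h
    rw [h]; norm_num
  have s3 : S 3 1 + S 3 2 + S 3 3 = 27 := by
    have h := hS 3 (by norm_num)
    simp only [Finset.sum_Icc_succ_top, Finset.Icc_self, Finset.sum_singleton, Nat.reduceLeDiff, Nat.reduceAdd, le_refl] at h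
    rw [h]; norm_num
  have s4 : S 4 1 + S 4 2 + S 4 3 + S 4 4 = 256 := by
    have h := hS 4 (by norm_num)
    simp only [Finset.sum_Icc_succ_top, Finset.Icc_self, Finset.sum_singleton, Nat.reduceLeDiff, Nat.reduceAdd, le_refl] at h
    rw [h]; norm_num
  have s5 : S 5 1 + S 5 2 + S 5 3 + S 5 4 + S 5 5 = 3125 := by
    have h := hS 5 (by norm_num)
    simp only [Finset.sum_Icc_succ_top, Finset.Icc_self, Finset.sum_singleton, Nat.reduceLeDiff, Nat.reduceAdd, le_refl] at h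
    rw [h]; norm_num
  have s6 : S 6 1 + S 6 2 + S 6 3 + S 6 4 + S 6 5 + S 6 6 = 46656 := by
    have h := hS 6 (by norm_num)
    simp only [Finset.sum_Icc_succ_top, Finset.Icc_self, Finset.sum_singleton, Nat.reduceLeDiff, Nat.reduceAdd, le_refl] at h
    rw [h]; norm_num
  have s7 : S 7 1 + S 7 2 + S 7 3 + S 7 4 + S 7 5 + S 7 6 + S 7 7 = 823543 := by
    have h := hS 7 (by norm_num)
    simp only [Finset.sum_Icc_succ_top, Finset.Icc_self, Finset.sum_singleton, Nat.reduceLeDiff, Nat.reduceAdd, le_refl] at h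
    rw [h]; norm_num
  have s8 : S 8 1 + S 8 2 + S 8 3 + S 8 4 + S 8 5 + S 8 6 + S 8 7 + S 8 8 = 16777216 := by
    have h := hS 8 (by norm_num)
    simp only [Finset.sum_Icc_succ_top, Finset.Icc_self, Finset.sum_singleton, Nat.reduceLeDiff, Nat.reduceAdd, le_refl] at h
    rw [h]; norm_num
  have r0_1 : S 1 1 = (a * ((0 : ℕ) : ℂ) + b * ((1 : ℕ) : ℂ) + c) * S 0 1 + (d * ((0 : ℕ) : ℂ) + e * ((1 : ℕ) : ℂ) + f) * S 0 0 :=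
    hC 0 1 (by norm_num)
  rw [Z 0 1 (by norm_num)] at r0_1
  push_cast at r0_1
  have r1_1 : S 2 1 = (a * ((1 : ℕ) : ℂ) + b * ((1 : ℕ) : ℂ) + c) * S 1 1 + (d * ((1 : ℕ) : ℂ) + e * ((1 : ℕ) : ℂ) + f) * S 1 0 :=
    hC 1 1 (by norm_num)
  rw [hB2 1 (by norm_num)] at r1_1
  push_cast at r1_1
  have r1_2 : S 2 2 = (a * ((1 : ℕ) : ℂ) + b * ((2 : ℕ) : ℂ) + c) * S 1 2 + (d * ((1 : ℕ) : ℂ) + e * ((2 : ℕ) : ℂ) + f) * S 1 1 :=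
    hC 1 2 (by norm_num)
  rw [Z 1 2 (by norm_num)] at r1_2
  push_cast at r1_2
  have r2_1 : S 3 1 = (a * ((2 : ℕ) : ℂ) + b * ((1 : ℕ) : ℂ) + c) * S 2 1 + (d * ((2 : ℕ) : ℂ) + e * ((1 : ℕ) : ℂ) + f) * S 2 0 :=
    hC 2 1 (by norm_num)
  rw [hB2 2 (by norm_num)] at r2_1
  push_cast at r2_1
  have r2_2 : S 3 2 = (a * ((2 : ℕ) : ℂ) + b * ((2 : ℕ) : ℂ) + c) * S 2 2 + (d * ((2 : ℕ) : ℂ) + e * ((2 : ℕ) : ℂ) + f) * S 2 1 :=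
    hC 2 2 (by norm_num)
  push_cast at r2_2
  have r2_3 : S 3 3 = (a * ((2 : ℕ) : ℂ) + b * ((3 : ℕ) : ℂ) + c) * S 2 3 + (d * ((2 : ℕ) : ℂ) + e * ((3 : ℕ) : ℂ) + f) * S 2 2 :=
    hC 2 3 (by norm_num)
  rw [Z 2 3 (by norm_num)] at r2_3
  push_cast at r2_3
  have r3_1 : S 4 1 = (a * ((3 : ℕ) : ℂ) + b * ((1 : ℕ) : ℂ) + c) * S 3 1 + (d * ((3 : ℕ) : ℂ) + e * ((1 : ℕ) : ℂ) + f) * S 3 0 :=
    hC 3 1 (by norm_num)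
  rw [hB2 3 (by norm_num)] at r3_1
  push_cast at r3_1
  have r3_2 : S 4 2 = (a * ((3 : ℕ) : ℂ) + b * ((2 : ℕ) : ℂ) + c) * S 3 2 + (d * ((3 : ℕ) : ℂ) + e * ((2 : ℕ) : ℂ) + f) * S 3 1 :=
    hC 3 2 (by norm_num)
  push_cast at r3_2
  have r3_3 : S 4 3 = (a * ((3 : ℕ) : ℂ) + b * ((3 : ℕ) : ℂ) + c) * S 3 3 + (d * ((3 : ℕ) : ℂ) + e * ((3 : ℕ) : ℂ) + f) * S 3 2 :=
    hC 3 3 (by norm_num)
  push_cast at r3_3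
  have r3_4 : S 4 4 = (a * ((3 : ℕ) : ℂ) + b * ((4 : ℕ) : ℂ) + c) * S 3 4 + (d * ((3 : ℕ) : ℂ) + e * ((4 : ℕ) : ℂ) + f) * S 3 3 :=
    hC 3 4 (by norm_num)
  rw [Z 3 4 (by norm_num)] at r3_4
  push_cast at r3_4
  have r4_1 : S 5 1 = (a * ((4 : ℕ) : ℂ) + b * ((1 : ℕ) : ℂ) + c) * S 4 1 + (d * ((4 : ℕ) : ℂ) + e * ((1 : ℕ) : ℂ) + f) * S 4 0 :=
    hC 4 1 (by norm_num)
  rw [hB2 4 (by norm_num)] at r4_1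
  push_cast at r4_1
  have r4_2 : S 5 2 = (a * ((4 : ℕ) : ℂ) + b * ((2 : ℕ) : ℂ) + c) * S 4 2 + (d * ((4 : ℕ) : ℂ) + e * ((2 : ℕ) : ℂ) + f) * S 4 1 :=
    hC 4 2 (by norm_num)
  push_cast at r4_2
  have r4_3 : S 5 3 = (a * ((4 : ℕ) : ℂ) + b * ((3 : ℕ) : ℂ) + c) * S 4 3 + (d * ((4 : ℕ) : ℂ) + e * ((3 : ℕ) : ℂ) + f) * S 4 2 :=
    hC 4 3 (by norm_num)
  push_cast at r4_3
  have r4_4 : S 5 4 = (a * ((4 : ℕ) : ℂ) + b * ((4 : ℕ) : ℂ) + c) * S 4 4 + (d * ((4 : ℕ) : ℂ) + e * ((4 : ℕ) : ℂ) + f) * S 4 3 :=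
    hC 4 4 (by norm_num)
  push_cast at r4_4
  have r4_5 : S 5 5 = (a * ((4 : ℕ) : ℂ) + b * ((5 : ℕ) : ℂ) + c) * S 4 5 + (d * ((4 : ℕ) : ℂ) + e * ((5 : ℕ) : ℂ) + f) * S 4 4 :=
    hC 4 5 (by norm_num)
  rw [Z 4 5 (by norm_num)] at r4_5
  push_cast at r4_5
  have r5_1 : S 6 1 = (a * ((5 : ℕ) : ℂ) + b * ((1 : ℕ) : ℂ) + c) * S 5 1 + (d * ((5 : ℕ) : ℂ) + e * ((1 : ℕ) : ℂ) + f) * S 5 0 :=
    hC 5 1 (by norm_num)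
  rw [hB2 5 (by norm_num)] at r5_1
  push_cast at r5_1
  have r5_2 : S 6 2 = (a * ((5 : ℕ) : ℂ) + b * ((2 : ℕ) : ℂ) + c) * S 5 2 + (d * ((5 : ℕ) : ℂ) + e * ((2 : ℕ) : ℂ) + f) * S 5 1 :=
    hC 5 2 (by norm_num)
  push_cast at r5_2
  have r5_3 : S 6 3 = (a * ((5 : ℕ) : ℂ) + b * ((3 : ℕ) : ℂ) + c) * S 5 3 + (d * ((5 : ℕ) : ℂ) + e * ((3 : ℕ) : ℂ) + f) * S 5 2 :=
    hC 5 3 (by norm_num)
  push_cast at r5_3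
  have r5_4 : S 6 4 = (a * ((5 : ℕ) : ℂ) + b * ((4 : ℕ) : ℂ) + c) * S 5 4 + (d * ((5 : ℕ) : ℂ) + e * ((4 : ℕ) : ℂ) + f) * S 5 3 :=
    hC 5 4 (by norm_num)
  push_cast at r5_4
  have r5_5 : S 6 5 = (a * ((5 : ℕ) : ℂ) + b * ((5 : ℕ) : ℂ) + c) * S 5 5 + (d * ((5 : ℕ) : ℂ) + e * ((5 : ℕ) : ℂ) + f) * S 5 4 :=
    hC 5 5 (by norm_num)
  push_cast at r5_5
  have r5_6 : S 6 6 = (a * ((5 : ℕ) : ℂ) + b * ((6 : ℕ) : ℂ) + c) * S 5 6 + (d * ((5 : ℕ) : ℂ) + e * ((6 : ℕ) : ℂ) + f) * S 5 5 :=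
    hC 5 6 (by norm_num)
  rw [Z 5 6 (by norm_num)] at r5_6
  push_cast at r5_6
  have r6_1 : S 7 1 = (a * ((6 : ℕ) : ℂ) + b * ((1 : ℕ) : ℂ) + c) * S 6 1 + (d * ((6 : ℕ) : ℂ) + e * ((1 : ℕ) : ℂ) + f) * S 6 0 :=
    hC 6 1 (by norm_num)
  rw [hB2 6 (by norm_num)] at r6_1
  push_cast at r6_1
  have r6_2 : S 7 2 = (a * ((6 : ℕ) : ℂ) + b * ((2 : ℕ) : ℂ) + c) * S 6 2 + (d * ((6 : ℕ) : ℂ) + e * ((2 : ℕ) : ℂ) + f) * S 6 1 :=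
    hC 6 2 (by norm_num)
  push_cast at r6_2
  have r6_3 : S 7 3 = (a * ((6 : ℕ) : ℂ) + b * ((3 : ℕ) : ℂ) + c) * S 6 3 + (d * ((6 : ℕ) : ℂ) + e * ((3 : ℕ) : ℂ) + f) * S 6 2 :=
    hC 6 3 (by norm_num)
  push_cast at r6_3
  have r6_4 : S 7 4 = (a * ((6 : ℕ) : ℂ) + b * ((4 : ℕ) : ℂ) + c) * S 6 4 + (d * ((6 : ℕ) : ℂ) + e * ((4 : ℕ) : ℂ) + f) * S 6 3 :=
    hC 6 4 (by norm_num)
  push_cast at r6_4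
  have r6_5 : S 7 5 = (a * ((6 : ℕ) : ℂ) + b * ((5 : ℕ) : ℂ) + c) * S 6 5 + (d * ((6 : ℕ) : ℂ) + e * ((5 : ℕ) : ℂ) + f) * S 6 4 :=
    hC 6 5 (by norm_num)
  push_cast at r6_5
  have r6_6 : S 7 6 = (a * ((6 : ℕ) : ℂ) + b * ((6 : ℕ) : ℂ) + c) * S 6 6 + (d * ((6 : ℕ) : ℂ) + e * ((6 : ℕ) : ℂ) + f) * S 6 5 :=
    hC 6 6 (by norm_num)
  push_cast at r6_6
  have r6_7 : S 7 7 = (a * ((6 : ℕ) : ℂ) + b * ((7 : ℕ) : ℂ) + c) * S 6 7 + (d * ((6 : ℕ) : ℂ) + e * ((7 : ℕ) : ℂ) + f) * S 6 6 :=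
    hC 6 7 (by norm_num)
  rw [Z 6 7 (by norm_num)] at r6_7
  push_cast at r6_7
  have r7_1 : S 8 1 = (a * ((7 : ℕ) : ℂ) + b * ((1 : ℕ) : ℂ) + c) * S 7 1 + (d * ((7 : ℕ) : ℂ) + e * ((1 : ℕ) : ℂ) + f) * S 7 0 :=
    hC 7 1 (by norm_num)
  rw [hB2 7 (by norm_num)] at r7_1
  push_cast at r7_1
  have r7_2 : S 8 2 = (a * ((7 : ℕ) : ℂ) + b * ((2 : ℕ) : ℂ) + c) * S 7 2 + (d * ((7 : ℕ) : ℂ) + e * ((2 : ℕ) : ℂ) + f) * S 7 1 :=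
    hC 7 2 (by norm_num)
  push_cast at r7_2
  have r7_3 : S 8 3 = (a * ((7 : ℕ) : ℂ) + b * ((3 : ℕ) : ℂ) + c) * S 7 3 + (d * ((7 : ℕ) : ℂ) + e * ((3 : ℕ) : ℂ) + f) * S 7 2 :=
    hC 7 3 (by norm_num)
  push_cast at r7_3
  have r7_4 : S 8 4 = (a * ((7 : ℕ) : ℂ) + b * ((4 : ℕ) : ℂ) + c) * S 7 4 + (d * ((7 : ℕ) : ℂ) + e * ((4 : ℕ) : ℂ) + f) * S 7 3 :=
    hC 7 4 (by norm_num)
  push_cast at r7_4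
  have r7_5 : S 8 5 = (a * ((7 : ℕ) : ℂ) + b * ((5 : ℕ) : ℂ) + c) * S 7 5 + (d * ((7 : ℕ) : ℂ) + e * ((5 : ℕ) : ℂ) + f) * S 7 4 :=
    hC 7 5 (by norm_num)
  push_cast at r7_5
  have r7_6 : S 8 6 = (a * ((7 : ℕ) : ℂ) + b * ((6 : ℕ) : ℂ) + c) * S 7 6 + (d * ((7 : ℕ) : ℂ) + e * ((6 : ℕ) : ℂ) + f) * S 7 5 :=
    hC 7 6 (by norm_num)
  push_cast at r7_6
  have r7_7 : S 8 7 = (a * ((7 : ℕ) : ℂ) + b * ((7 : ℕ) : ℂ) + c) * S 7 7 + (d * ((7 : ℕ) : ℂ) + e * ((7 : ℕ) : ℂ) + f) * S 7 6 :=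
    hC 7 7 (by norm_num)
  push_cast at r7_7
  have r7_8 : S 8 8 = (a * ((7 : ℕ) : ℂ) + b * ((8 : ℕ) : ℂ) + c) * S 7 8 + (d * ((7 : ℕ) : ℂ) + e * ((8 : ℕ) : ℂ) + f) * S 7 7 :=
    hC 7 8 (by norm_num)
  rw [Z 7 8 (by norm_num)] at r7_8
  push_cast at r7_8
  have hf : f = 1 - e := by rw [hA, s1] at r0_1; linear_combination -r0_1
  have hc : c = 3 - a - b - d - e := by
    rw [r1_1, r1_2, s1, hf] at s2; linear_combination s2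
  obtain ⟨h1, h2, h3, h4⟩ := main (a + d - 2) (b + e - 1) (e - 1) d S s1
    (by rw [r1_1]; simp only [hf, hc]; ring)
    (by rw [r1_2]; simp only [hf, hc]; ring)
    (by rw [r2_1]; simp only [hf, hc]; ring)
    (by rw [r2_2]; simp only [hf, hc]; ring)
    (by rw [r2_3]; simp only [hf, hc]; ring)
    (by rw [r3_1]; simp only [hf, hc]; ring)
    (by rw [r3_2]; simp only [hf, hc]; ring)
    (by rw [r3_3]; simp only [hf, hc]; ring)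
    (by rw [r3_4]; simp only [hf, hc]; ring)
    (by rw [r4_1]; simp only [hf, hc]; ring)
    (by rw [r4_2]; simp only [hf, hc]; ring)
    (by rw [r4_3]; simp only [hf, hc]; ring)
    (by rw [r4_4]; simp only [hf, hc]; ring)
    (by rw [r4_5]; simp only [hf, hc]; ring)
    (by rw [r5_1]; simp only [hf, hc]; ring)
    (by rw [r5_2]; simp only [hf, hc]; ring)
    (by rw [r5_3]; simp only [hf, hc]; ring)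
    (by rw [r5_4]; simp only [hf, hc]; ring)
    (by rw [r5_5]; simp only [hf, hc]; ring)
    (by rw [r5_6]; simp only [hf, hc]; ring)
    (by rw [r6_1]; simp only [hf, hc]; ring)
    (by rw [r6_2]; simp only [hf, hc]; ring)
    (by rw [r6_3]; simp only [hf, hc]; ring)
    (by rw [r6_4]; simp only [hf, hc]; ring)
    (by rw [r6_5]; simp only [hf, hc]; ring)
    (by rw [r6_6]; simp only [hf, hc]; ring)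
    (by rw [r6_7]; simp only [hf, hc]; ring)
    (by rw [r7_1]; simp only [hf, hc]; ring)
    (by rw [r7_2]; simp only [hf, hc]; ring)
    (by rw [r7_3]; simp only [hf, hc]; ring)
    (by rw [r7_4]; simp only [hf, hc]; ring)
    (by rw [r7_5]; simp only [hf, hc]; ring)
    (by rw [r7_6]; simp only [hf, hc]; ring)
    (by rw [r7_7]; simp only [hf, hc]; ring)
    (by rw [r7_8]; simp only [hf, hc]; ring)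
    s2 s3 s4 s5 s6 s7 s8
  refine ⟨by linear_combination h1 - h4, by linear_combination h2 - h3, ?_, h4,
    by linear_combination h3, by linear_combination hf - h3⟩
  linear_combination hc - h1 - h2

end Pool.Agent.Results.MP_97c21f_co.Linear
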